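import Mathlib
import Pool.Agent.H62.GolombDefs
import Pool.Agent.H62.GolombMult

set_option autoImplicit false

namespace Pool.Agent.Results.MP_04502c_nt.LimsupZero

open Filter Topology Pool.Agent.H62.Golomb

theorem result :
    (∀ r, 2 ≤ r → ∃! a, IsAlmostGolomb r a) ∧
    ∀ A : ℕ → ℕ → ℕ, (∀ r, 2 ≤ r → Sol r (A r)) →
      Tendsto (fun r => limsup (fun n : ℕ => (A r n : ℝ) / n) atTop) atTop (𝓝 0) :=
  ⟨fun _ hr => ⟨_, b_almost hr, fun _ h => h.eq_b hr⟩, limsup_tendsto⟩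

end Pool.Agent.Results.MP_04502c_nt.LimsupZero
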